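import Pool.Agent.Q230.SchurMul

/-!
# MP_c77999_an, Q2: the maximal Schur multiplier norms of sign matrices are strictly increasing

`opN` is the operator norm of complex `n × n` matrices on Euclidean `ℂⁿ`, `had` the entrywise
product, `schurN` the Schur multiplier norm, `Q n` the set of the `n × n` matrices with entries
`±1` and `r n` the maximum of `schurN` on `Q n`.  We show `r (n + 1) ≥ r n + 1 / (4 n)`.

The matrix of order `n + 1` is obtained from an extremal matrix of order `n` by repeating a row and
a column and changing the sign of the new corner entry.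
-/

namespace Pool.Agent.Results.MP_c77999_an.StrictlyIncreasing

open Pool.Agent.Q230.SchurMul

/-- `r n` is the maximum of the Schur multiplier norms of the sign matrices of order `n`, and
`r (n + 1) ≥ r n + 1 / (4 n) > r n` for all `n ≥ 1`. -/
theorem result :
    (∀ n : ℕ, (∃ M ∈ Q n, schurN M = r n) ∧ ∀ M ∈ Q n, schurN M ≤ r n) ∧
    (∀ n : ℕ, 1 ≤ n → r n + 1 / (4 * (n : ℝ)) ≤ r (n + 1)) ∧
    ∀ n : ℕ, 1 ≤ n → r n < r (n + 1) := by
  refine ⟨fun n => ⟨exists_r n, fun M hM => schurN_le_r hM⟩, fun n hn => r_succ hn, fun n hn => ?_⟩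
  have h := r_succ (n := n) hn
  have hn' : (0 : ℝ) < n := by exact_mod_cast hn
  have : 0 < 1 / (4 * (n : ℝ)) := by positivity
  linarith

end Pool.Agent.Results.MP_c77999_an.StrictlyIncreasing
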